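import Pool.Agent.H.MP_eb30e1_co.Main

namespace Pool.Agent.Results.MP_eb30e1_co.Q1
open Pool.Agent.H.MP_eb30e1_co

theorem result (n : ℕ) :
    (3 ≤ n → IsLeast {m | ∃ c, IsMaxChain n c ∧ numFPP n c = m} (n / 2 + 1)) ∧
    (n = 1 ∨ n = 2 → IsLeast {m | ∃ c, IsMaxChain n c ∧ numFPP n c = m} 1) :=
  ⟨main, small⟩

end Pool.Agent.Results.MP_eb30e1_co.Q1
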